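import Pool.Agent.helper36.PP.SpecL

/-! # pp:LIM (helper70): the discs shrink -/

set_option autoImplicit false

open Complex Metric Set Filter Topology MeasureTheory MPS MQ Pool.Agent.helper98.ILF

noncomputable section

namespace PPS

theorem LIM_QQcont {k : ℕ} [NeZero k] (f : Polynomial ℂ) (b g : ZMod k → ℂ) :
    Continuous (QQ f b g) := by
  unfold QQ
  fun_prop

theorem LIM_int (f : Polynomial ℂ) (A : ℝ) (μ : ℂ → ℂ) (hμ : LF f A μ) (q : ℂ → ℂ)
    (hq : Continuous q) : Integrable (fun y => μ y * q y) := by
  have hs : ∀ y, y ∉ closedBall (0 : ℂ) A → μ y * q y = 0 := by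
    intro y hy
    have h0 : μ y = 0 := by
      by_contra h
      apply hy
      rw [mem_closedBall, dist_zero_right]
      exact (hμ.supp y h).le
    rw [h0, zero_mul]
  have hon : IntegrableOn (fun y => μ y * q y) (closedBall (0 : ℂ) A) := by
    have hqi : IntegrableOn q (closedBall (0 : ℂ) A) :=
      hq.continuousOn.integrableOn_compact (isCompact_closedBall _ _)
    refine Integrable.mono hqi ?_ ?_
    · exact (hμ.meas.aestronglyMeasurable.mul hq.aestronglyMeasurable)
    · refine Eventually.of_forall fun y => ?_
      rw [norm_mul]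
      calc ‖μ y‖ * ‖q y‖ ≤ 1 * ‖q y‖ := mul_le_mul_of_nonneg_right (hμ.bd y) (norm_nonneg _)
        _ = ‖q y‖ := one_mul _
  rw [← integrableOn_univ]
  refine hon.of_forall_sdiff_eq_zero MeasurableSet.univ ?_
  intro y hy
  exact hs y hy.2

theorem LIM (hERQ : ERQ_stmt) (hIP : IP_stmt) : LIM_stmt := by
  intro k _ f b g A μ r hn hc hμ hr hE
  have hfi : Integrable (fun z => μ z * er f b g z) := by
    have h1 : IntegrableOn (fun y => μ y * QQ f b g y) {y : ℂ | f.eval y ∈ (univ : Set ℂ)} :=
      (LIM_int f A μ hμ _ (LIM_QQcont f b g)).integrableOn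
    have h2 := (hIP f A μ (le_trans (by norm_num) hn) hμ (QQ f b g) univ
      (LIM_QQcont f b g).measurable MeasurableSet.univ h1).1
    rw [integrableOn_univ] at h2
    have h3 := (hERQ f.natDegree k f b g hn rfl hc hE).1
    refine h2.congr ?_
    filter_upwards [h3] with z hz
    rw [hz]
  refine ⟨hfi, ?_⟩
  have hKm : ∀ s : ℝ, MeasurableSet (NLF.KK b (fun i => s * r i)) := by
    intro s
    exact (isOpen_iUnion fun i => isOpen_ball).measurableSet.compl
  have hind : ∀ s : ℝ, ∫ z in NLF.KK b (fun i => s * r i), μ z * er f b g z =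
      ∫ z, (NLF.KK b (fun i => s * r i)).indicator (fun z => μ z * er f b g z) z := by
    intro s
    rw [integral_indicator (hKm s)]
  simp only [hind]
  refine tendsto_integral_filter_of_dominated_convergence
    (fun z => ‖μ z * er f b g z‖) ?_ ?_ hfi.norm ?_
  · exact Eventually.of_forall fun s => hfi.aestronglyMeasurable.indicator (hKm s)
  · refine Eventually.of_forall fun s => Eventually.of_forall fun z => ?_
    exact norm_indicator_le_norm_self _ _
  · have hnull : volume (Set.range b) = 0 := (Set.finite_range b).measure_zero volume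
    have hae : ∀ᵐ z : ℂ, z ∉ Set.range b := measure_eq_zero_iff_ae_notMem.1 hnull
    filter_upwards [hae] with z hz
    have hev : ∀ᶠ s : ℝ in 𝓝[>] 0, ∀ i, s * r i ≤ dist z (b i) := by
      rw [eventually_all]
      intro i
      have hpos : 0 < dist z (b i) := by
        rw [dist_pos]
        intro h
        exact hz ⟨i, h.symm⟩
      have ht : Tendsto (fun s : ℝ => s * r i) (𝓝[>] 0) (𝓝 0) := by
        have hc1 : Continuous (fun s : ℝ => s * r i) := by fun_prop
        have := (hc1.tendsto 0).mono_left (nhdsWithin_le_nhds (s := Ioi (0 : ℝ)))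
        rwa [zero_mul] at this
      filter_upwards [ht.eventually_lt_const hpos] with s hs
      exact hs.le
    refine tendsto_const_nhds.congr' ?_
    filter_upwards [hev] with s hs
    have hzK : z ∈ NLF.KK b (fun i => s * r i) := by
      unfold NLF.KK
      rw [mem_compl_iff, mem_iUnion]
      rintro ⟨i, hi⟩
      rw [mem_ball] at hi
      exact absurd (hs i) (not_le.2 hi)
    rw [indicator_of_mem hzK]

end PPS
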