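import Pool.Agent.helper36.PP.SpecE

/-! # pp:THB0 (helper70): the estimate for arbitrary coefficients -/

set_option autoImplicit false

open Complex Metric Set Filter Topology MeasureTheory MPS MQ

noncomputable section

namespace PPS

theorem THB0_iter {k : ℕ} [NeZero k] (f : Polynomial ℂ) (b : ZMod k → ℂ) (hc : IsCyc f b)
    (j : ZMod k) (m : ℕ) : (fun w : ℂ => f.eval w)^[m] (b j) = b (j + (m : ZMod k)) := by
  induction m with
  | zero => simp
  | succ m ih =>
    rw [Function.iterate_succ_apply', ih]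
    show f.eval (b (j + (m : ZMod k))) = _
    rw [hc.step]
    congr 1
    push_cast
    ring

theorem THB0 (hRAD : RAD_stmt) (hMAINB : MAINB_stmt) (hERI : ERI_stmt) : THB0_stmt := by
  intro n a d₀ hn ha hd
  obtain ⟨A, hA1, hA⟩ := hRAD n a hn ha
  have hA0 : 0 < A := lt_of_lt_of_le one_pos hA1
  obtain ⟨R, hR1, hraR, ε, hε, hM⟩ := hMAINB n d₀ A A hn hd hA0
  refine ⟨R, le_trans hA1 hR1, ε, hε, ?_⟩
  intro f hf
  obtain ⟨h1, h2, h3⟩ := hA f hf
  have hinv : ∀ y : ℂ, ‖f.eval y‖ < R → ‖y‖ < R := fun y hy => h2 R y hR1 hy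
  refine ⟨hinv, ?_⟩
  intro k _ b g hk hc hρ hd'
  by_contra hlt
  push Not at hlt
  have hbA : ∀ j, ‖b j‖ ≤ A := by
    intro j
    refine (h3 k (b j) (by omega) ?_).le
    rw [THB0_iter f b hc j k]
    simp
  have hρ1 : rho f b ≠ 1 := by
    intro h
    rw [h] at hρ
    simp at hρ
  have hη : 0 < (ε - (2 * Real.pi * Real.log ‖rho f b‖ +
      4 * ∫ z in ball (0 : ℂ) R, ‖er f b g z‖)) / 4 := by linarith
  obtain ⟨g', hg', hle⟩ := (hERI n k f b g R hn hf.1 hc hρ1 (lt_of_lt_of_le hA0 hR1) hinv).2 _ hη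
  exact hM k f b g' hk hf.1 hc hbA hinv hρ hd' hg' (by linarith)

end PPS
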