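import Pool.Agent.helper57.PP.Spec

/-!
# Project pp (MP_974a61_co), row PT: the phase in which the top vertices are removed
-/

set_option autoImplicit false

namespace Pool.Agent.helper57.PP

open Finset

section

variable {W : Type} [DecidableEq W]

theorem PT_fan_ne (x y0 : W) (mid : List W) (yr : W) :
    (fan x (y0 :: (mid ++ [yr]))).Nonempty := by
  cases mid with
  | nil => exact ⟨insert x {y0, yr}, mem_image_of_mem _ (by simp)⟩
  | cons c l => exact ⟨insert x {y0, c}, mem_image_of_mem _ (by simp)⟩

theorem PT_fan_vs {R : Finset (Finset W)} {x y0 yr : W} {mid : List W}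
    (hfan : cof R {x} = fan x (y0 :: (mid ++ [yr]))) {y : W} (hy : y ∈ mid) : y ∈ vs R := by
  have h1 : y ∈ pth y0 mid yr := by
    unfold pth
    simp [hy]
  obtain ⟨e, he, hye⟩ := exists_pe_of_mem h1
  have h2 : insert x e ∈ cof R {x} := by
    rw [hfan]
    exact mem_image_of_mem _ he
  exact mem_vs.2 ⟨insert x e, cof_subset R _ h2, mem_insert_of_mem hye⟩

theorem PT_card {R : Finset (Finset W)} {x y0 yr : W} {mid : List W}
    (hfan : cof R {x} = fan x (y0 :: (mid ++ [yr]))) : (R \ cof R {x}).card < R.card := by
  refine card_lt_card (sdiff_ssubset (cof_subset R _) ?_)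
  rw [hfan]
  exact PT_fan_ne x y0 mid yr

/-- one step of the sweep -/
theorem PT_step (h2 : FAN_stmt) (h3 : REM_stmt) {T R : Finset (Finset W)} {a z : W} {bs ts : List W}
    {A : List W} {y0 x yr : W} {B : List W} (hD : Disc T a z bs ts)
    (hS : St T a z bs R (A ++ y0 :: x :: yr :: B)) (hx : x ∉ pth a bs z)
    (hch : ∀ y ∈ A ++ y0 :: x :: yr :: B, {x, y} ∈ edges T → y = y0 ∨ y = yr) :
    ∃ mid : List W, (y0 :: (mid ++ [yr])).Nodup ∧ cof R {x} = fan x (y0 :: (mid ++ [yr])) ∧
      (∀ y ∈ mid, y ∉ A ++ y0 :: x :: yr :: B) ∧
      St T a z bs (R \ cof R {x}) (A ++ y0 :: (mid ++ yr :: B)) ∧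
      (R \ cof R {x}).card < R.card ∧ ∀ y ∈ mid, y ∈ vs R := by
  obtain ⟨mid, hnd, hfan, hmid⟩ := h2 W T R a z bs ts A y0 x yr B hD hS hx hch
  exact ⟨mid, hnd, hfan, hmid, h3 W T R a z bs ts A y0 x yr B mid hD hS hx hnd hfan hmid,
    PT_card hfan, fun y hy => PT_fan_vs hfan hy⟩

theorem PT_last {l : List W} (h : l ≠ []) : ∃ A y, l = A ++ [y] :=
  ⟨l.dropLast, l.getLast h, (List.dropLast_append_getLast h).symm⟩

theorem PT_head (l : List W) (z : W) : ∃ y B, l ++ [z] = y :: B := by
  cases l with
  | nil => exact ⟨z, [], rfl⟩
  | cons c l => exact ⟨c, l ++ [z], rfl⟩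

theorem PT_main (h1 : MC_stmt) (h2 : FAN_stmt) (h3 : REM_stmt) (h4 : QOUT_stmt)
    {T : Finset (Finset W)} {a z : W} {bs ts : List W} (hD : Disc T a z bs ts)
    (HQ : ∀ x ∈ pth a ts z, ∀ y ∈ pth a ts z, {x, y} ∈ edges T → {x, y} ∈ pe (pth a ts z))
    (HX : ∀ b ∈ bs, ∀ t ∈ ts, {t, b} ∉ edges T) (n : ℕ) :
    ∀ (R : Finset (Finset W)) (A' tl0 tl' : List W), R.card = n →
    St T a z bs R (A' ++ (tl' ++ [z])) → ts = tl0 ++ tl' → (∀ x ∈ A', x ∉ ts) → A' ≠ [] →
    (tl0 = [] → A' = [a]) →
    ∃ (σ : List (Step W)) (R' : Finset (Finset W)) (C' : List W),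
      Sw T a z bs R (A' ++ (tl' ++ [z])) σ R' C' ∧
      (∀ s ∈ σ, (∀ b ∈ bs, {s.x, b} ∉ edges T) ∧ s.y0 ∉ ts ∧
        (s.x ∈ ts → ∃ A B, pth a ts z = A ++ s.x :: s.yr :: B)) ∧
      (∀ t ∈ ts, t ∉ C') := by
  induction n using Nat.strong_induction_on with
  | _ n ih =>
  intro R A' tl0 tl' hn hS hts hA' hne hnil
  have hnd := hD.nd
  have hzts : z ∉ ts := by
    intro h
    simp only [List.nodup_cons, List.mem_cons, List.mem_append] at hnd
    exact hnd.2.1 (Or.inr h)
  have hats : a ∉ ts := by
    intro h
    simp only [List.nodup_cons, List.mem_cons, List.mem_append] at hnd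
    exact hnd.1 (Or.inr (Or.inr h))
  have haz : a ≠ z := by
    intro h
    simp only [List.nodup_cons, List.mem_cons, List.mem_append] at hnd
    exact hnd.1 (Or.inl h)
  have htsnd : ts.Nodup := by
    simp only [List.nodup_cons, List.nodup_append] at hnd
    exact hnd.2.2.2.1
  have hbt : ∀ t ∈ ts, t ∉ bs := by
    intro t ht hb
    simp only [List.nodup_cons, List.nodup_append] at hnd
    exact hnd.2.2.2.2 t hb t ht rfl
  have htP : ∀ t ∈ ts, t ∉ pth a bs z := by
    intro t ht h
    unfold pth at h
    simp only [List.mem_cons, List.mem_append, List.not_mem_nil, or_false] at h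
    rcases h with rfl | h | rfl
    · exact hats ht
    · exact hbt t ht h
    · exact hzts ht
  cases tl' with
  | nil =>
    refine ⟨[], R, _, Sw.nil R _ hS, by simp, ?_⟩
    intro t ht h
    rw [List.nil_append, List.mem_append, List.mem_singleton] at h
    rcases h with h | rfl
    · exact hA' t h ht
    · exact hzts ht
  | cons t tl'' =>
    have htt : t ∈ ts := by
      rw [hts]
      simp
    obtain ⟨A2, y0, hA2⟩ := PT_last hne
    obtain ⟨yr, B, hyr⟩ := PT_head tl'' z
    have hC : A' ++ (t :: tl'' ++ [z]) = A2 ++ y0 :: t :: yr :: B := by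
      rw [hA2, List.append_assoc]
      simp only [List.cons_append, List.nil_append]
      rw [hyr]
    have hCnd := hS.nd
    by_cases hch : ∀ y ∈ A2 ++ y0 :: t :: yr :: B, {t, y} ∈ edges T → y = y0 ∨ y = yr
    · -- t has no chord
      have hS' := hS
      rw [hC] at hS'
      obtain ⟨mid, m1, m2, m3, m4, m5, m6⟩ := PT_step h2 h3 hD hS' (htP t htt) hch
      have hnew : A2 ++ y0 :: (mid ++ yr :: B) = (A' ++ mid) ++ (tl'' ++ [z]) := by
        rw [hA2, hyr]
        simp
      have hA'n : ∀ x ∈ A' ++ mid, x ∉ ts := by
        intro x hx hxt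
        rw [List.mem_append] at hx
        rcases hx with hx | hx
        · exact hA' x hx hxt
        · exact h4 W T R a z bs ts _ hD hS' x hxt (m3 x hx) (m6 x hx)
      rw [hnew] at m4
      obtain ⟨σ, R', C', s1, s2, s3⟩ := ih _ (hn ▸ m5) (R \ cof R {t}) (A' ++ mid) (tl0 ++ [t]) tl''
        rfl m4 (by rw [hts]; simp) hA'n (by simp [hne]) (by simp)
      refine ⟨⟨t, y0, mid, yr⟩ :: σ, R', C', ?_, ?_, s3⟩
      · rw [hC]
        refine Sw.cons R A2 y0 t yr B mid σ R' C' hS' (htP t htt) m1 m2 m3 ?_
        rw [hnew]
        exact s1
      · intro s hs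
        rw [List.mem_cons] at hs
        rcases hs with rfl | hs
        · refine ⟨fun b hb => HX b hb t htt, hA' y0 (by rw [hA2]; simp), fun _ => ?_⟩
          refine ⟨a :: tl0, B, ?_⟩
          unfold pth
          rw [hts]
          simp only [List.append_assoc, List.cons_append]
          rw [hyr]
        · exact s2 s hs
    · -- t has a chord
      push Not at hch
      obtain ⟨y', hy'C, hye, hy0, hyr'⟩ := hch
      have hS' := hS
      rw [hC] at hS'
      have hnpe : ({t, y'} : Finset W) ∉ pe (A2 ++ y0 :: t :: yr :: B) := by
        intro h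
        have hty := edges_ne hye
        rcases pe_at hS'.nd h (by simp) with h5 | h5
        · have : y' ∈ ({y0, t} : Finset W) := by
            rw [← h5]
            simp
          simp only [mem_insert, mem_singleton] at this
          rcases this with h6 | h6
          · exact hy0 h6
          · exact hty h6.symm
        · have : y' ∈ ({t, yr} : Finset W) := by
            rw [← h5]
            simp
          simp only [mem_insert, mem_singleton] at this
          rcases this with h6 | h6
          · exact hty h6.symm
          · exact hyr' h6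
      have htC : t ∈ A2 ++ y0 :: t :: yr :: B := by simp
      have hR : ({t, y'} : Finset W) ∈ edges R := by
        rcases hS'.up t htC y' hy'C hye with h | h
        · exact h
        · exact absurd h hnpe
      -- the top path around t
      obtain ⟨P, q, hPq⟩ := PT_last (l := a :: tl0) (by simp)
      have htop : pth a ts z = P ++ q :: t :: yr :: B := by
        unfold pth
        rw [hts]
        have e1 : a :: (tl0 ++ t :: tl'' ++ [z]) = (a :: tl0) ++ (t :: (tl'' ++ [z])) := by simp
        rw [e1, hPq, hyr]
        simp
      have htopnd : (pth a ts z).Nodup := by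
        unfold pth
        rw [List.nodup_cons, List.nodup_append]
        refine ⟨?_, htsnd, by simp, ?_⟩
        · simp only [List.mem_append, List.mem_singleton, not_or]
          exact ⟨hats, haz⟩
        · intro x hx y hy
          rw [List.mem_singleton] at hy
          rintro rfl
          rw [hy] at hx
          exact hzts hx
      have htopt : t ∈ pth a ts z := by
        rw [htop]
        simp
      have hkey : y' ∈ pth a ts z → y' = q := by
        intro h
        have h5 := HQ t htopt y' h hye
        rw [htop] at h5 htopnd
        have hty := edges_ne hye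
        rcases pe_at htopnd h5 (by simp) with h6 | h6
        · have : y' ∈ ({q, t} : Finset W) := by
            rw [← h6]
            simp
          simp only [mem_insert, mem_singleton] at this
          rcases this with h7 | h7
          · exact h7
          · exact absurd h7.symm hty
        · have : y' ∈ ({t, yr} : Finset W) := by
            rw [← h6]
            simp
          simp only [mem_insert, mem_singleton] at this
          rcases this with h7 | h7
          · exact absurd h7.symm hty
          · exact absurd h7 hyr'
      have hq : q ∈ a :: tl0 := by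
        rw [hPq]
        simp
      have hyA : y' ∈ A' := by
        rw [← hC, List.mem_append] at hy'C
        rcases hy'C with h | h
        · exact h
        · exfalso
          have hty := edges_ne hye
          have h5 : y' ∈ yr :: B := by
            rw [← hyr]
            rw [List.cons_append, List.mem_cons] at h
            rcases h with h | h
            · exact absurd h.symm hty
            · exact h
          have h6 : y' ∈ pth a ts z := by
            rw [htop]
            simp only [List.mem_append, List.mem_cons] at h5 ⊢
            tauto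
          have h7 := hkey h6
          rw [htop] at htopnd
          have h8 : (P ++ [q]) ++ (t :: yr :: B) = P ++ q :: t :: yr :: B := by simp
          rw [← h8, List.nodup_append] at htopnd
          exact htopnd.2.2 q (by simp) q (by
            rw [← h7]
            exact List.mem_cons_of_mem t h5) rfl
      have hyts : y' ∉ ts := hA' y' hyA
      have hya : y' ≠ a := by
        intro h
        have h5 : y' ∈ pth a ts z := by
          rw [h]
          unfold pth
          simp
        have h6 := hkey h5
        have h7 : tl0 = [] := by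
          by_contra h8
          obtain ⟨D, d, hd⟩ := PT_last h8
          have h9 : P ++ [q] = (a :: D) ++ [d] := by
            rw [← hPq, hd]
            simp
          have h10 : q = d := by
            have := (List.append_inj' h9 rfl).2
            simpa using this
          apply hats
          rw [← h, h6, h10, hts, hd]
          simp
        have h11 := hnil h7
        rw [h11] at hA2
        have h12 : y0 = a := by
          have := congrArg List.getLast? hA2
          simpa using this.symm
        exact hy0 (h.trans h12.symm)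
      have hyz : y' ≠ z := by
        rintro rfl
        have h5 := hCnd
        rw [List.nodup_append] at h5
        exact h5.2.2 y' hyA y' (by simp) rfl
      have hybs : y' ∉ bs := fun h => HX y' h t htt hye
      -- the segment between y' and t
      obtain ⟨A1, M, hA1⟩ := List.append_of_mem hyA
      have hM : M ≠ [] := by
        rintro rfl
        rw [hA1] at hA2
        have := congrArg List.getLast? hA2
        exact hy0 (by simpa using this)
      have hC2 : A' ++ (t :: tl'' ++ [z]) = A1 ++ y' :: (M ++ t :: (tl'' ++ [z])) := by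
        rw [hA1]
        simp
      have hS2 := hS
      rw [hC2] at hS2
      obtain ⟨v, hvM, hvP, hvB, hvC⟩ := h1 W T R a z bs ts bs.toFinset A1 y' M t (tl'' ++ [z]) hD hS2
        hM (by rw [Finset.pair_comm]; exact hR)
        (by
          intro b hb
          rw [List.mem_toFinset] at hb
          unfold pth
          simp [hb])
        (by rwa [List.mem_toFinset]) (by rw [List.mem_toFinset]; exact hbt t htt)
      obtain ⟨M1, M2, hM12⟩ := List.append_of_mem hvM
      obtain ⟨A3, y1, hA3⟩ := PT_last (l := A1 ++ y' :: M1) (by simp)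
      obtain ⟨y2, B2, hB2⟩ : ∃ y2 B2, M2 ++ t :: (tl'' ++ [z]) = y2 :: B2 := by
        cases M2 with
        | nil => exact ⟨_, _, rfl⟩
        | cons c l => exact ⟨c, l ++ t :: (tl'' ++ [z]), rfl⟩
      have hA'3 : A' = A3 ++ y1 :: v :: M2 := by
        have e1 : A' = (A1 ++ y' :: M1) ++ v :: M2 := by
          rw [hA1, hM12]
          simp
        rw [e1, hA3]
        simp
      have hC3 : A' ++ (t :: tl'' ++ [z]) = A3 ++ y1 :: v :: y2 :: B2 := by
        rw [hA'3]
        have e1 : A3 ++ y1 :: v :: M2 ++ (t :: tl'' ++ [z]) =
            A3 ++ y1 :: v :: (M2 ++ t :: (tl'' ++ [z])) := by simp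
        rw [e1, hB2]
      have hS3 := hS
      rw [hC3] at hS3
      have hvch : ∀ y ∈ A3 ++ y1 :: v :: y2 :: B2, {v, y} ∈ edges T → y = y1 ∨ y = y2 := by
        intro y hy hvy
        have hvy' := edges_ne hvy
        have h5 := hvC y (by rw [← hC2, hC3]; exact hy) hvy
        rw [← hC2, hC3] at h5
        rcases pe_at hS3.nd h5 (by simp) with h6 | h6
        · have : y ∈ ({y1, v} : Finset W) := by
            rw [← h6]
            simp
          simp only [mem_insert, mem_singleton] at this
          rcases this with h7 | h7
          · exact Or.inl h7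
          · exact absurd h7.symm hvy'
        · have : y ∈ ({v, y2} : Finset W) := by
            rw [← h6]
            simp
          simp only [mem_insert, mem_singleton] at this
          rcases this with h7 | h7
          · exact absurd h7.symm hvy'
          · exact Or.inr h7
      obtain ⟨mid, m1, m2, m3, m4, m5, m6⟩ := PT_step h2 h3 hD hS3 hvP hvch
      have hnew : A3 ++ y1 :: (mid ++ y2 :: B2) = (A3 ++ y1 :: (mid ++ M2)) ++ (t :: tl'' ++ [z]) := by
        rw [← hB2]
        simp
      have hA'n : ∀ x ∈ A3 ++ y1 :: (mid ++ M2), x ∉ ts := by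
        intro x hx hxt
        have hx2 : x ∈ A' ∨ x ∈ mid := by
          rw [hA'3]
          simp only [List.mem_append, List.mem_cons] at hx ⊢
          tauto
        rcases hx2 with hx | hx
        · exact hA' x hx hxt
        · exact h4 W T R a z bs ts _ hD hS3 x hxt (m3 x hx) (m6 x hx)
      rw [hnew] at m4
      obtain ⟨σ, R', C', s1, s2, s3⟩ := ih _ (hn ▸ m5) (R \ cof R {v}) (A3 ++ y1 :: (mid ++ M2)) tl0
        (t :: tl'') rfl m4 hts hA'n (by simp) (by
          intro h
          exfalso
          have h5 := hnil h
          rw [h5, List.mem_singleton] at hyA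
          exact hya hyA)
      refine ⟨⟨v, y1, mid, y2⟩ :: σ, R', C', ?_, ?_, s3⟩
      · rw [hC3]
        refine Sw.cons R A3 y1 v y2 B2 mid σ R' C' hS3 hvP m1 m2 m3 ?_
        rw [hnew]
        exact s1
      · intro s hs
        rw [List.mem_cons] at hs
        rcases hs with rfl | hs
        · refine ⟨fun b hb => hvB b (List.mem_toFinset.2 hb), hA' y1 (by rw [hA'3]; simp), ?_⟩
          intro hvt
          exact absurd hvt (hA' v (by rw [hA'3]; simp))
        · exact s2 s hs

end

/-- **PT** -/
theorem PT (h1 : MC_stmt) (h2 : FAN_stmt) (h3 : REM_stmt) (h4 : QOUT_stmt) : PT_stmt := by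
  intro W _ T R a z bs ts A' tl0 tl' hD HQ HX hS hts hA' hne hnil
  exact PT_main h1 h2 h3 h4 hD HQ HX R.card R A' tl0 tl' rfl hS hts hA' hne hnil

end Pool.Agent.helper57.PP
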